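import Mathlib

/-!
# Closures of union-closed families (MP_89e0e0_co): definitions and the reduction
-/

set_option autoImplicit false
set_option linter.unusedSectionVars false

namespace Pool.Agent.UCF

open Finset

/-- `F` is union-closed over the whole ground set `α` (the empty set is excluded) -/
def UnionClosed {α : Type} [Fintype α] [DecidableEq α] (F : Finset (Finset α)) : Prop :=
  ∅ ∉ F ∧ Finset.univ ∈ F ∧ ∀ A ∈ F, ∀ B ∈ F, A ∪ B ∈ F

open Classical in
/-- the closure of `F`: all nonempty `A` such that `F ∪ {A}` is union-closed -/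
noncomputable def closure {α : Type} [Fintype α] [DecidableEq α] (F : Finset (Finset α)) :
    Finset (Finset α) :=
  Finset.univ.filter (fun A => A.Nonempty ∧ UnionClosed (insert A F))

lemma mem_closure {α : Type} [Fintype α] [DecidableEq α] (F : Finset (Finset α)) (A : Finset α) :
    A ∈ closure F ↔ A.Nonempty ∧ UnionClosed (insert A F) := by
  simp [closure]

/-- some element lies in at least `⌊|F|/2⌋` members of `F` -/
def Frankl {α : Type} [DecidableEq α] (F : Finset (Finset α)) : Prop :=
  ∃ i : α, F.card / 2 ≤ (F.filter (fun A => i ∈ A)).card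

/-- some element lies in at least `c|F|` members of `F` -/
def Abundant {α : Type} [DecidableEq α] (c : ℝ) (F : Finset (Finset α)) : Prop :=
  ∃ i : α, c * (F.card : ℝ) ≤ ((F.filter (fun A => i ∈ A)).card : ℝ)

/-! ### Transport along a bijection of the ground sets -/

section Transport

variable {α β : Type} [Fintype α] [DecidableEq α] [Fintype β] [DecidableEq β]

/-- the image of a family -/
def tr (e : α ≃ β) (F : Finset (Finset α)) : Finset (Finset β) :=
  F.map e.finsetCongr.toEmbedding

lemma mem_tr (e : α ≃ β) (F : Finset (Finset α)) (B : Finset β) :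
    B ∈ tr e F ↔ e.finsetCongr.symm B ∈ F := by
  unfold tr
  rw [Finset.mem_map_equiv]

lemma card_tr (e : α ≃ β) (F : Finset (Finset α)) : (tr e F).card = F.card :=
  Finset.card_map _

lemma symm_union (e : α ≃ β) (A B : Finset β) :
    e.finsetCongr.symm (A ∪ B) = e.finsetCongr.symm A ∪ e.finsetCongr.symm B := by
  ext x
  simp [Equiv.finsetCongr]

lemma symm_univ (e : α ≃ β) : e.finsetCongr.symm (Finset.univ : Finset β) = Finset.univ := by
  ext x
  simp [Equiv.finsetCongr]

lemma symm_empty (e : α ≃ β) : e.finsetCongr.symm (∅ : Finset β) = ∅ := by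
  ext x
  simp [Equiv.finsetCongr]

lemma mem_symm (e : α ≃ β) (A : Finset β) (x : α) :
    x ∈ e.finsetCongr.symm A ↔ e x ∈ A := by
  simp [Equiv.finsetCongr]

lemma unionClosed_tr (e : α ≃ β) (F : Finset (Finset α)) :
    UnionClosed (tr e F) ↔ UnionClosed F := by
  constructor
  · rintro ⟨h1, h2, h3⟩
    refine ⟨?_, ?_, ?_⟩
    · intro h
      exact h1 ((mem_tr e F _).2 (by rw [symm_empty]; exact h))
    · have := (mem_tr e F _).1 h2
      rwa [symm_univ] at this
    · intro A hA B hB
      have := h3 (e.finsetCongr A) ((mem_tr e F _).2 (by rw [Equiv.symm_apply_apply]; exact hA))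
        (e.finsetCongr B) ((mem_tr e F _).2 (by rw [Equiv.symm_apply_apply]; exact hB))
      have h4 := (mem_tr e F _).1 this
      rw [symm_union, Equiv.symm_apply_apply, Equiv.symm_apply_apply] at h4
      exact h4
  · rintro ⟨h1, h2, h3⟩
    refine ⟨?_, ?_, ?_⟩
    · intro h
      have := (mem_tr e F _).1 h
      rw [symm_empty] at this
      exact h1 this
    · exact (mem_tr e F _).2 (by rw [symm_univ]; exact h2)
    · intro A hA B hB
      refine (mem_tr e F _).2 ?_
      rw [symm_union]
      exact h3 _ ((mem_tr e F _).1 hA) _ ((mem_tr e F _).1 hB)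

lemma insert_tr (e : α ≃ β) (F : Finset (Finset α)) (B : Finset β) :
    insert B (tr e F) = tr e (insert (e.finsetCongr.symm B) F) := by
  ext C
  rw [Finset.mem_insert, mem_tr, mem_tr, Finset.mem_insert]
  constructor
  · rintro (h | h)
    · exact Or.inl (by rw [h])
    · exact Or.inr h
  · rintro (h | h)
    · exact Or.inl (e.finsetCongr.symm.injective h)
    · exact Or.inr h

lemma closure_tr (e : α ≃ β) (F : Finset (Finset α)) :
    closure (tr e F) = tr e (closure F) := by
  ext B
  rw [mem_tr]
  rw [mem_closure, mem_closure, insert_tr, unionClosed_tr]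
  constructor
  · rintro ⟨h1, h2⟩
    refine ⟨?_, h2⟩
    rw [Finset.nonempty_iff_ne_empty] at h1 ⊢
    intro h
    apply h1
    have := symm_empty e
    exact e.finsetCongr.symm.injective (h.trans this.symm)
  · rintro ⟨h1, h2⟩
    refine ⟨?_, h2⟩
    rw [Finset.nonempty_iff_ne_empty] at h1 ⊢
    intro h
    apply h1
    rw [h, symm_empty]

lemma card_filter_tr (e : α ≃ β) (F : Finset (Finset α)) (x : α) :
    ((tr e F).filter (fun A => e x ∈ A)).card = (F.filter (fun A => x ∈ A)).card := by
  have : (tr e F).filter (fun A => e x ∈ A) = tr e (F.filter (fun A => x ∈ A)) := by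
    ext B
    rw [Finset.mem_filter, mem_tr, mem_tr, Finset.mem_filter, mem_symm]
  rw [this, card_tr]

lemma frankl_tr (e : α ≃ β) (F : Finset (Finset α)) : Frankl (tr e F) ↔ Frankl F := by
  unfold Frankl
  rw [card_tr]
  constructor
  · rintro ⟨i, hi⟩
    refine ⟨e.symm i, ?_⟩
    rw [← card_filter_tr e]
    simpa using hi
  · rintro ⟨i, hi⟩
    refine ⟨e i, ?_⟩
    rw [card_filter_tr]
    exact hi

lemma abundant_tr (e : α ≃ β) (F : Finset (Finset α)) (c : ℝ) (h : Abundant c F) :
    Abundant c (tr e F) := by
  obtain ⟨i, hi⟩ := h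
  refine ⟨e i, ?_⟩
  rw [card_tr, card_filter_tr]
  exact hi

end Transport

/-- the positive answer to Q1 -/
def Q1 : Prop := ∀ n : ℕ, 1 ≤ n → ∀ F : Finset (Finset (Fin n)),
  UnionClosed F → Frankl F → Frankl (closure F)

/-- the variant of Q1 for families with an element in at least `c|F|` members -/
def Q1Abundant (c : ℝ) : Prop := ∀ n : ℕ, 1 ≤ n → ∀ F : Finset (Finset (Fin n)),
  UnionClosed F → Abundant c F → Frankl (closure F)

/-- the union-closed sets conjecture -/
def UCConj : Prop := ∀ n : ℕ, 1 ≤ n → ∀ F : Finset (Finset (Fin n)), UnionClosed F → Frankl F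

lemma Q1_general {c : ℝ} (h : Q1Abundant c) {α : Type} [Fintype α] [DecidableEq α] [Nonempty α]
    (F : Finset (Finset α)) (h1 : UnionClosed F) (h2 : Abundant c F) : Frankl (closure F) := by
  have e := Fintype.equivFin α
  have h3 := h (Fintype.card α) Fintype.card_pos (tr e F) ((unionClosed_tr e F).2 h1)
    (abundant_tr e F c h2)
  rw [closure_tr, frankl_tr] at h3
  exact h3

lemma unionClosed_closure {α : Type} [Fintype α] [DecidableEq α] [Nonempty α]
    (F : Finset (Finset α)) (h : UnionClosed F) : UnionClosed (closure F) := by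
  obtain ⟨h1, h2, h3⟩ := h
  refine ⟨?_, ?_, ?_⟩
  · intro h
    rw [mem_closure] at h
    exact Finset.not_nonempty_empty h.1
  · rw [mem_closure, Finset.insert_eq_of_mem h2]
    exact ⟨Finset.univ_nonempty, h1, h2, h3⟩
  · intro A hA B hB
    rw [mem_closure] at hA hB ⊢
    obtain ⟨hA1, -, -, hA4⟩ := hA
    obtain ⟨hB1, -, -, hB4⟩ := hB
    have key : ∀ C ∈ F, A ∪ B ∪ C ∈ insert (A ∪ B) F := by
      intro C hC
      have e1 := hB4 B (Finset.mem_insert_self _ _) C (Finset.mem_insert_of_mem hC)
      rw [Finset.mem_insert] at e1 ⊢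
      rcases e1 with e1 | e1
      · left
        rw [Finset.union_assoc, e1]
      · have e2 := hA4 A (Finset.mem_insert_self _ _) (B ∪ C) (Finset.mem_insert_of_mem e1)
        rw [Finset.mem_insert] at e2
        rw [Finset.union_assoc]
        rcases e2 with e2 | e2
        · left
          rw [e2]
          apply Finset.Subset.antisymm Finset.subset_union_left
          apply Finset.union_subset (Finset.Subset.refl _)
          calc B ⊆ B ∪ C := Finset.subset_union_left
            _ ⊆ A ∪ (B ∪ C) := Finset.subset_union_right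
            _ = A := e2
        · right
          exact e2
    refine ⟨hA1.mono Finset.subset_union_left, ?_, Finset.mem_insert_of_mem h2, ?_⟩
    · rw [Finset.mem_insert]
      rintro (h | h)
      · have := hA1.mono (Finset.subset_union_left (s₁ := A) (s₂ := B))
        rw [← h] at this
        exact Finset.not_nonempty_empty this
      · exact h1 h
    · intro C hC D hD
      rw [Finset.mem_insert] at hC hD
      rcases hC with rfl | hC
      · rcases hD with rfl | hD
        · rw [Finset.union_self]
          exact Finset.mem_insert_self _ _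
        · exact key D hD
      · rcases hD with rfl | hD
        · rw [Finset.union_comm C (A ∪ B)]
          exact key C hC
        · exact Finset.mem_insert_of_mem (h3 C hC D hD)

/-- the case in which some element lies in all members -/
lemma frankl_of_all {α : Type} [Fintype α] [DecidableEq α] [Nonempty α]
    (F : Finset (Finset α)) (h : UnionClosed F) (x : α) (hx : ∀ A ∈ F, x ∈ A) :
    Frankl (closure F) := by
  refine ⟨x, ?_⟩
  have h1 : ((closure F).filter (fun A => x ∉ A)).card ≤
      ((closure F).filter (fun A => x ∈ A)).card := by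
    refine Finset.card_le_card_of_injOn (fun A => insert x A) ?_ ?_
    · intro A hA
      have hA' := Finset.mem_filter.1 hA
      rw [Finset.mem_coe, Finset.mem_filter]
      refine ⟨?_, Finset.mem_insert_self _ _⟩
      have hA1 := hA'.1
      rw [mem_closure] at hA1 ⊢
      obtain ⟨-, -, -, h4⟩ := hA1
      have key : ∀ C ∈ F, insert x A ∪ C ∈ insert (insert x A) F := by
        intro C hC
        have e1 := h4 A (Finset.mem_insert_self _ _) C (Finset.mem_insert_of_mem hC)
        have e2 : insert x A ∪ C = A ∪ C := by
          rw [Finset.insert_union, Finset.insert_eq_of_mem]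
          exact Finset.mem_union_right _ (hx C hC)
        rw [e2]
        rw [Finset.mem_insert] at e1
        rcases e1 with e1 | e1
        · exfalso
          apply hA'.2
          rw [← e1]
          exact Finset.mem_union_right _ (hx C hC)
        · exact Finset.mem_insert_of_mem e1
      refine ⟨Finset.insert_nonempty _ _, ?_, Finset.mem_insert_of_mem h.2.1, ?_⟩
      · rw [Finset.mem_insert]
        rintro (h5 | h5)
        · exact Finset.insert_ne_empty _ _ h5.symm
        · exact h.1 h5
      · intro C hC D hD
        rw [Finset.mem_insert] at hC hD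
        rcases hC with rfl | hC
        · rcases hD with rfl | hD
          · rw [Finset.union_self]
            exact Finset.mem_insert_self _ _
          · exact key D hD
        · rcases hD with rfl | hD
          · rw [Finset.union_comm]
            exact key C hC
          · exact Finset.mem_insert_of_mem (h.2.2 C hC D hD)
    · intro A hA B hB hAB
      have hA' := (Finset.mem_filter.1 hA).2
      have hB' := (Finset.mem_filter.1 hB).2
      have := congrArg (fun S => Finset.erase S x) hAB
      simpa [Finset.erase_insert hA', Finset.erase_insert hB'] using this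
  have h2 := Finset.card_filter_add_card_filter_not (s := closure F) (fun A => x ∈ A)
  omega

/-! ### The construction -/

section Construction

variable {K n : ℕ}

/-- the part of `C` in block `j` -/
def sec (C : Finset (Fin K × Fin n)) (j : Fin K) : Finset (Fin n) :=
  Finset.univ.filter (fun i => (j, i) ∈ C)

/-- the set with given parts -/
def glue (f : Fin K → Finset (Fin n)) : Finset (Fin K × Fin n) :=
  Finset.univ.filter (fun p => p.2 ∈ f p.1)

lemma mem_sec (C : Finset (Fin K × Fin n)) (j : Fin K) (i : Fin n) :
    i ∈ sec C j ↔ (j, i) ∈ C := by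
  simp [sec]

lemma mem_glue (f : Fin K → Finset (Fin n)) (p : Fin K × Fin n) :
    p ∈ glue f ↔ p.2 ∈ f p.1 := by
  simp [glue]

lemma sec_glue (f : Fin K → Finset (Fin n)) : sec (glue f) = f := by
  ext j i
  rw [mem_sec, mem_glue]

lemma glue_sec (C : Finset (Fin K × Fin n)) : glue (sec C) = C := by
  ext ⟨j, i⟩
  rw [mem_glue, mem_sec]

lemma sec_union (A B : Finset (Fin K × Fin n)) (j : Fin K) :
    sec (A ∪ B) j = sec A j ∪ sec B j := by
  ext i
  simp [mem_sec]

/-- the sets all of whose parts `j` lie in `G j` -/
def box (G : Fin K → Finset (Finset (Fin n))) : Finset (Finset (Fin K × Fin n)) :=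
  Finset.univ.filter (fun C => ∀ j, sec C j ∈ G j)

lemma mem_box (G : Fin K → Finset (Finset (Fin n))) (C : Finset (Fin K × Fin n)) :
    C ∈ box G ↔ ∀ j, sec C j ∈ G j := by
  simp [box]

lemma card_box (G : Fin K → Finset (Finset (Fin n))) : (box G).card = ∏ j, (G j).card := by
  rw [← Fintype.card_piFinset]
  refine Finset.card_nbij' (fun C => sec C) (fun f => glue f) ?_ ?_ ?_ ?_
  · intro C hC
    rw [Finset.mem_coe, Fintype.mem_piFinset]
    exact (mem_box G C).1 hC
  · intro f hf
    rw [Finset.mem_coe, mem_box, sec_glue]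
    exact Fintype.mem_piFinset.1 hf
  · intro C _
    exact glue_sec C
  · intro f _
    exact sec_glue f

/-- the elements of the box `H₀^K` whose part `j` contains `i` -/
lemma card_box_mem (H₀ : Finset (Finset (Fin n))) (j : Fin K) (i : Fin n) :
    ((box (fun _ : Fin K => H₀)).filter (fun C => (j, i) ∈ C)).card =
      (H₀.filter (fun A => i ∈ A)).card * H₀.card ^ (K - 1) := by
  have h1 : (box (fun _ : Fin K => H₀)).filter (fun C => (j, i) ∈ C) =
      box (Function.update (fun _ : Fin K => H₀) j (H₀.filter (fun A => i ∈ A))) := by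
    ext C
    rw [Finset.mem_filter, mem_box, mem_box]
    constructor
    · rintro ⟨h1, h2⟩ l
      by_cases hl : l = j
      · subst hl
        rw [Function.update_self, Finset.mem_filter]
        exact ⟨h1 l, (mem_sec C l i).2 h2⟩
      · rw [Function.update_of_ne hl]
        exact h1 l
    · intro h
      constructor
      · intro l
        by_cases hl : l = j
        · subst hl
          have := h l
          rw [Function.update_self, Finset.mem_filter] at this
          exact this.1
        · have := h l
          rw [Function.update_of_ne hl] at this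
          exact this
      · have := h j
        rw [Function.update_self, Finset.mem_filter] at this
        exact (mem_sec C j i).1 this.2
  rw [h1, card_box]
  have h2 : ∀ l : Fin K, (Function.update (fun _ : Fin K => H₀) j
      (H₀.filter (fun A => i ∈ A)) l).card =
      Function.update (fun _ : Fin K => H₀.card) j (H₀.filter (fun A => i ∈ A)).card l := by
    intro l
    by_cases hl : l = j
    · subst hl
      rw [Function.update_self, Function.update_self]
    · rw [Function.update_of_ne hl, Function.update_of_ne hl]
  rw [Finset.prod_congr rfl (fun l _ => h2 l), Finset.prod_update_of_mem (Finset.mem_univ j)]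
  rw [Finset.prod_const]
  congr 2
  rw [Finset.card_sdiff_of_subset (Finset.subset_univ _), Finset.card_univ, Fintype.card_fin,
    Finset.card_singleton]

/-- the sets with all parts full except possibly part `j` -/
def almost (j : Fin K) : Finset (Finset (Fin K × Fin n)) :=
  Finset.univ.filter (fun C => ∀ l, l ≠ j → sec C l = Finset.univ)

lemma card_almost (j : Fin K) : (almost (n := n) j).card ≤ 2 ^ n := by
  have h : (almost (n := n) j).card ≤ (Finset.univ : Finset (Finset (Fin n))).card := by
    refine Finset.card_le_card_of_injOn (fun C => sec C j) (fun C _ => Finset.mem_univ _) ?_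
    intro A hA B hB hAB
    have hA' := (Finset.mem_filter.1 hA).2
    have hB' := (Finset.mem_filter.1 hB).2
    rw [← glue_sec A, ← glue_sec B]
    congr 1
    funext l
    by_cases hl : l = j
    · subst hl
      exact hAB
    · rw [hA' l hl, hB' l hl]
  rw [Finset.card_univ, Fintype.card_finset, Fintype.card_fin] at h
  exact h

lemma pow_bound (n : ℕ) : (n + 4) * 2 ^ (n + 1) + 2 < 3 ^ (n + 4) := by
  induction n with
  | zero => norm_num
  | succ n ih =>
    have h1 : (n + 1 + 4) * 2 ^ (n + 1 + 1) + 2 ≤ 3 * ((n + 4) * 2 ^ (n + 1) + 2) := by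
      rw [pow_succ 2 (n + 1)]
      have : 0 < 2 ^ (n + 1) := by positivity
      nlinarith
    have h2 : 3 ^ (n + 1 + 4) = 3 * 3 ^ (n + 4) := by ring
    omega

lemma pow_bound' (n k : ℕ) : (n + 4 + k) * 2 ^ (n + 1) + 2 < 3 ^ (n + 4 + k) := by
  induction k with
  | zero => exact pow_bound n
  | succ k ih =>
    have h1 : (n + 4 + (k + 1)) * 2 ^ (n + 1) + 2 ≤ 3 * ((n + 4 + k) * 2 ^ (n + 1) + 2) := by
      have : 0 < 2 ^ (n + 1) := by positivity
      nlinarith
    have h2 : 3 ^ (n + 4 + (k + 1)) = 3 * 3 ^ (n + 4 + k) := by ring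
    omega

/-- the sets of `H₀^K` for which `j` is the only block among the first `k` not containing `x` -/
lemma card_single (H₀ : Finset (Finset (Fin n))) (x : Fin n) (k : ℕ) (j : Fin K)
    (hj : j.val < k) :
    (H₀.filter (fun A => x ∈ A)).card * ((box (fun _ : Fin K => H₀)).filter (fun C =>
      (j, x) ∉ C ∧ ∀ l : Fin K, l.val < k → l ≠ j → (l, x) ∈ C)).card =
    (H₀.filter (fun A => x ∉ A)).card * ∏ l : Fin K, (if l.val < k then
      (H₀.filter (fun A => x ∈ A)).card else H₀.card) := by
  set u : Fin K → ℕ := fun l => if l.val < k then (H₀.filter (fun A => x ∈ A)).card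
    else H₀.card with hu
  let G : Fin K → Finset (Finset (Fin n)) := fun l => if l = j then H₀.filter (fun A => x ∉ A)
    else if l.val < k then H₀.filter (fun A => x ∈ A) else H₀
  have h1 : (box (fun _ : Fin K => H₀)).filter (fun C =>
      (j, x) ∉ C ∧ ∀ l : Fin K, l.val < k → l ≠ j → (l, x) ∈ C) = box G := by
    ext C
    rw [Finset.mem_filter, mem_box, mem_box]
    constructor
    · rintro ⟨h1, h2, h3⟩ l
      by_cases hl : l = j
      · subst hl
        simp only [G, if_true]
        rw [Finset.mem_filter, mem_sec]
        exact ⟨h1 l, h2⟩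
      · by_cases hk : l.val < k
        · simp only [G, if_neg hl, if_pos hk]
          rw [Finset.mem_filter, mem_sec]
          exact ⟨h1 l, h3 l hk hl⟩
        · simp only [G, if_neg hl, if_neg hk]
          exact h1 l
    · intro h
      refine ⟨?_, ?_, ?_⟩
      · intro l
        have := h l
        simp only [G] at this
        split_ifs at this
        · exact (Finset.mem_filter.1 this).1
        · exact (Finset.mem_filter.1 this).1
        · exact this
      · have := h j
        simp only [G, if_true] at this
        rw [Finset.mem_filter, mem_sec] at this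
        exact this.2
      · intro l hk hl
        have := h l
        simp only [G, if_neg hl, if_pos hk] at this
        rw [Finset.mem_filter, mem_sec] at this
        exact this.2
  rw [h1, card_box]
  have h2 : ∀ l : Fin K, (G l).card =
      Function.update u j (H₀.filter (fun A => x ∉ A)).card l := by
    intro l
    by_cases hl : l = j
    · subst hl
      simp only [G, if_true, Function.update_self]
    · rw [Function.update_of_ne hl]
      simp only [G, if_neg hl, hu]
      split_ifs <;> rfl
  rw [Finset.prod_congr rfl (fun l _ => h2 l), Finset.prod_update_of_mem (Finset.mem_univ j)]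
  have h3 : ∏ l : Fin K, u l = u j * ∏ l ∈ Finset.univ \ {j}, u l := by
    have := Finset.prod_update_of_mem (Finset.mem_univ j) u (u j)
    rw [Function.update_eq_self] at this
    exact this
  have h4 : u j = (H₀.filter (fun A => x ∈ A)).card := by
    simp only [hu, if_pos hj]
  rw [h3, h4]
  ring

theorem main {c : ℝ} (hc : c < 1) (hQ : Q1Abundant c) : UCConj := by
  intro n hn H hH
  by_contra hF
  have hlt : ∀ i : Fin n, (H.filter (fun A => i ∈ A)).card < H.card / 2 := by
    intro i
    by_contra h
    exact hF ⟨i, not_lt.1 h⟩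
  -- the number of controlled blocks
  obtain ⟨k, hk2, hkc⟩ : ∃ k : ℕ, 2 ≤ k ∧ c * k ≤ k - 1 := by
    obtain ⟨k, hk⟩ := exists_nat_ge (1 / (1 - c))
    refine ⟨k + 2, by omega, ?_⟩
    have h1 : 0 < 1 - c := by linarith
    have h2 : 1 ≤ (1 - c) * k := by
      rw [div_le_iff₀ h1] at hk
      linarith
    push_cast
    nlinarith
  set K : ℕ := n + 4 + k with hK
  set H₀ : Finset (Finset (Fin n)) := insert ∅ H with hH₀
  obtain ⟨hH1, hH2, hH3⟩ := hH
  have hcard : H₀.card = H.card + 1 := Finset.card_insert_of_notMem hH1
  have hfil : ∀ i : Fin n, (H₀.filter (fun A => i ∈ A)) = (H.filter (fun A => i ∈ A)) := by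
    intro i
    rw [hH₀, Finset.filter_insert, if_neg (Finset.notMem_empty i)]
  have hunion : ∀ A ∈ H₀, ∀ B ∈ H₀, A ∪ B ∈ H₀ := by
    intro A hA B hB
    rw [hH₀, Finset.mem_insert] at hA hB ⊢
    rcases hA with rfl | hA
    · rw [Finset.empty_union]
      exact hB
    · rcases hB with rfl | hB
      · rw [Finset.union_empty]
        exact Or.inr hA
      · exact Or.inr (hH3 A hA B hB)
  have htop : (Finset.univ : Finset (Fin n)) ∈ H₀ := Finset.mem_insert_of_mem hH2
  let x : Fin n := ⟨0, hn⟩
  let j0 : Fin K := ⟨0, by omega⟩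
  let j1 : Fin K := ⟨1, by omega⟩
  have hj : j0 ≠ j1 := by
    intro h
    have := congrArg Fin.val h
    simp [j0, j1] at this
  have hj0k : j0.val < k := by
    show 0 < k
    omega
  have hj1k : j1.val < k := by
    show 1 < k
    omega
  have hother : ∀ l : Fin K, ∃ j : Fin K, j.val < k ∧ j ≠ l := by
    intro l
    by_cases h0 : j0 = l
    · exact ⟨j1, hj1k, fun h => hj (h0.trans h.symm)⟩
    · exact ⟨j0, hj0k, h0⟩
  let P : Finset (Finset (Fin K × Fin n)) := box (fun _ : Fin K => H₀)
  let F : Finset (Finset (Fin K × Fin n)) := P.filter (fun C =>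
    ∃ l : Fin K, ∀ j : Fin K, j.val < k → j ≠ l → (j, x) ∈ C)
  have hPunion : ∀ A ∈ P, ∀ B ∈ P, A ∪ B ∈ P := by
    intro A hA B hB
    rw [mem_box] at hA hB ⊢
    intro j
    rw [sec_union]
    exact hunion _ (hA j) _ (hB j)
  have hFact : ∀ C ∈ P, ∀ A ∈ F, C ∪ A ∈ F := by
    intro C hC A hA
    rw [Finset.mem_filter] at hA ⊢
    obtain ⟨hA1, l, hl⟩ := hA
    exact ⟨hPunion C hC A hA1, l, fun j h1 h2 => Finset.mem_union_right _ (hl j h1 h2)⟩
  have hFuc : UnionClosed F := by
    refine ⟨?_, ?_, ?_⟩
    · intro h
      obtain ⟨l, hl⟩ := (Finset.mem_filter.1 h).2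
      obtain ⟨j, h1, h2⟩ := hother l
      exact Finset.notMem_empty _ (hl j h1 h2)
    · rw [Finset.mem_filter]
      refine ⟨?_, j0, fun _ _ _ => Finset.mem_univ _⟩
      rw [mem_box]
      intro j
      have : sec (Finset.univ : Finset (Fin K × Fin n)) j = Finset.univ := by
        ext i
        simp [mem_sec]
      rw [this]
      exact htop
    · intro A hA B hB
      exact hFact A (Finset.mem_filter.1 hA).1 B hB
  have hcardmem : ∀ (j : Fin K) (i : Fin n), (P.filter (fun C => (j, i) ∈ C)).card =
      (H.filter (fun A => i ∈ A)).card * H₀.card ^ (K - 1) := by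
    intro j i
    rw [card_box_mem, hfil]
  -- the frequency of `(j0, x)` in `F`
  have hapos : 0 < (H₀.filter (fun A => x ∈ A)).card := by
    refine Finset.card_pos.2 ⟨Finset.univ, ?_⟩
    rw [Finset.mem_filter]
    exact ⟨htop, Finset.mem_univ _⟩
  let S : Fin K → Finset (Finset (Fin K × Fin n)) := fun j => P.filter (fun C =>
      (j, x) ∉ C ∧ ∀ l : Fin K, l.val < k → l ≠ j → (l, x) ∈ C)
  have hkK : k ≤ K := by omega
  have hScard : ∀ j : Fin K, j.val < k → (S j).card = (S j0).card := by
    intro j hjk
    have e1 := card_single (K := K) H₀ x k j hjk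
    have e2 := card_single (K := K) H₀ x k j0 hj0k
    exact Nat.eq_of_mul_eq_mul_left hapos (e1.trans e2.symm)
  have hbad : k * (S j0).card ≤ F.card := by
    have h1 : (Finset.univ.biUnion (fun j : Fin k => S (Fin.castLE hkK j))).card =
        k * (S j0).card := by
      rw [Finset.card_biUnion]
      · rw [Finset.sum_congr rfl (fun j _ => hScard (Fin.castLE hkK j) j.2), Finset.sum_const,
          Finset.card_univ, Fintype.card_fin, smul_eq_mul]
      · intro j _ l _ hjl
        show Disjoint (S (Fin.castLE hkK j)) (S (Fin.castLE hkK l))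
        rw [Finset.disjoint_left]
        intro C hC hC'
        have h2 := (Finset.mem_filter.1 hC).2.1
        have h3 := (Finset.mem_filter.1 hC').2.2 (Fin.castLE hkK j) j.2
          (fun h => hjl (Fin.castLE_injective hkK h))
        exact h2 h3
    rw [← h1]
    refine Finset.card_le_card ?_
    intro C hC
    rw [Finset.mem_biUnion] at hC
    obtain ⟨j, -, hC⟩ := hC
    rw [Finset.mem_filter] at hC ⊢
    exact ⟨hC.1, Fin.castLE hkK j, hC.2.2⟩
  have hFab : Abundant c F := by
    refine ⟨(j0, x), ?_⟩
    have h1 := Finset.card_filter_add_card_filter_not (s := F) (fun A => (j0, x) ∈ A)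
    have h2 : (F.filter (fun A => (j0, x) ∉ A)).card ≤ (S j0).card := by
      refine Finset.card_le_card ?_
      intro C hC
      rw [Finset.mem_filter] at hC
      obtain ⟨hC1, hC2⟩ := hC
      rw [Finset.mem_filter] at hC1 ⊢
      obtain ⟨hC3, l, hl⟩ := hC1
      refine ⟨hC3, hC2, ?_⟩
      have hl0 : l = j0 := by
        by_contra hne
        exact hC2 (hl j0 hj0k (fun h => hne h.symm))
      subst hl0
      exact hl
    have h3 : k * (F.filter (fun A => (j0, x) ∉ A)).card ≤ F.card :=
      (Nat.mul_le_mul_left k h2).trans hbad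
    have h4 : (k : ℝ) * ((F.filter (fun A => (j0, x) ∉ A)).card : ℝ) ≤ (F.card : ℝ) := by
      exact_mod_cast h3
    have h5 : ((F.filter (fun A => (j0, x) ∈ A)).card : ℝ) +
        ((F.filter (fun A => (j0, x) ∉ A)).card : ℝ) = (F.card : ℝ) := by
      exact_mod_cast h1
    have hkpos : (0 : ℝ) < k := by
      have : (2 : ℝ) ≤ k := by exact_mod_cast hk2
      linarith
    have h6 : (k : ℝ) * (c * (F.card : ℝ)) ≤
        k * ((F.filter (fun A => (j0, x) ∈ A)).card : ℝ) := by
      have h7 : (0 : ℝ) ≤ (F.card : ℝ) := Nat.cast_nonneg _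
      have h8 : (k : ℝ) * ((F.filter (fun A => (j0, x) ∈ A)).card : ℝ) =
          k * (F.card : ℝ) - k * ((F.filter (fun A => (j0, x) ∉ A)).card : ℝ) := by
        rw [← h5]
        ring
      rw [h8]
      have h9 : (k : ℝ) * (c * (F.card : ℝ)) = (c * k) * (F.card : ℝ) := by ring
      rw [h9]
      have h10 := mul_le_mul_of_nonneg_right hkc h7
      linarith
    exact le_of_mul_le_mul_left h6 hkpos
  have : Nonempty (Fin K × Fin n) := ⟨(j0, x)⟩
  obtain ⟨⟨j, i⟩, hji⟩ := Q1_general hQ F hFuc hFab
  -- upper bound for the closure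
  have hsub : closure F ⊆ P ∪ Finset.univ.biUnion (fun j : Fin K => almost (n := n) j) := by
    intro C hC
    rw [mem_closure] at hC
    obtain ⟨-, -, -, hC3⟩ := hC
    rw [Finset.mem_union]
    by_contra hcon
    push Not at hcon
    obtain ⟨hc1, hc2⟩ := hcon
    rw [mem_box] at hc1
    push Not at hc1
    obtain ⟨l, hl⟩ := hc1
    apply hc2
    rw [Finset.mem_biUnion]
    refine ⟨l, Finset.mem_univ _, ?_⟩
    unfold almost
    rw [Finset.mem_filter]
    refine ⟨Finset.mem_univ _, ?_⟩
    let A : Finset (Fin K × Fin n) := glue (fun m => if m = l then ∅ else Finset.univ)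
    have hAsec : ∀ m, sec A m = if m = l then ∅ else Finset.univ := by
      intro m
      have := congrFun (sec_glue (fun m : Fin K => if m = l then (∅ : Finset (Fin n))
        else Finset.univ)) m
      exact this
    have hAF : A ∈ F := by
      rw [Finset.mem_filter]
      constructor
      · rw [mem_box]
        intro m
        rw [hAsec]
        split_ifs
        · exact Finset.mem_insert_self _ _
        · exact htop
      · refine ⟨l, fun m _ hm => ?_⟩
        rw [← mem_sec, hAsec, if_neg hm]
        exact Finset.mem_univ _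
    have h4 := hC3 C (Finset.mem_insert_self _ _) A (Finset.mem_insert_of_mem hAF)
    rw [Finset.mem_insert] at h4
    rcases h4 with h4 | h4
    · intro m hm
      have h5 : sec A m ⊆ sec C m := by
        rw [← h4, sec_union]
        exact Finset.subset_union_right
      rw [hAsec, if_neg hm] at h5
      exact Finset.univ_subset_iff.1 h5
    · exfalso
      have h5 := (mem_box _ _).1 (Finset.mem_filter.1 h4).1 l
      rw [sec_union, hAsec, if_pos rfl, Finset.union_empty] at h5
      exact hl h5
  have hsup : P.erase ∅ ⊆ closure F := by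
    intro C hC
    rw [Finset.mem_erase] at hC
    rw [mem_closure]
    refine ⟨Finset.nonempty_iff_ne_empty.2 hC.1, ?_, ?_, ?_⟩
    · rw [Finset.mem_insert]
      rintro (h | h)
      · exact hC.1 h.symm
      · exact hFuc.1 h
    · exact Finset.mem_insert_of_mem hFuc.2.1
    · intro A hA B hB
      rw [Finset.mem_insert] at hA hB ⊢
      rcases hA with rfl | hA
      · rcases hB with rfl | hB
        · left
          exact Finset.union_self _
        · right
          exact hFact _ hC.2 _ hB
      · rcases hB with rfl | hB
        · right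
          rw [Finset.union_comm]
          exact hFact _ hC.2 _ hA
        · right
          exact hFact A (Finset.mem_filter.1 hA).1 B hB
  have hPcard : P.card = H₀.card ^ K := by
    rw [card_box, Finset.prod_const, Finset.card_univ, Fintype.card_fin]
  have hlow : H₀.card ^ K - 1 ≤ (closure F).card := by
    have h1 := Finset.card_le_card hsup
    have h2 : P.card - 1 ≤ (P.erase ∅).card := Finset.pred_card_le_card_erase
    omega
  have hT : (Finset.univ.biUnion (fun j : Fin K => almost (n := n) j)).card ≤ K * 2 ^ n := by
    have := Finset.card_biUnion_le_card_mul (Finset.univ : Finset (Fin K))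
      (fun j : Fin K => almost (n := n) j) (2 ^ n) (fun j _ => card_almost j)
    rwa [Finset.card_univ, Fintype.card_fin] at this
  have hup : ((closure F).filter (fun A => (j, i) ∈ A)).card ≤
      (H.filter (fun A => i ∈ A)).card * H₀.card ^ (K - 1) + K * 2 ^ n := by
    have h1 : (closure F).filter (fun A => (j, i) ∈ A) ⊆ P.filter (fun A => (j, i) ∈ A) ∪
        Finset.univ.biUnion (fun j : Fin K => almost (n := n) j) := by
      intro C hC
      rw [Finset.mem_filter] at hC
      have := hsub hC.1
      rw [Finset.mem_union] at this ⊢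
      rcases this with h | h
      · exact Or.inl (Finset.mem_filter.2 ⟨h, hC.2⟩)
      · exact Or.inr h
    calc ((closure F).filter (fun A => (j, i) ∈ A)).card
        ≤ (P.filter (fun A => (j, i) ∈ A) ∪
          Finset.univ.biUnion (fun j : Fin K => almost (n := n) j)).card := Finset.card_le_card h1
      _ ≤ _ := Finset.card_union_le _ _
      _ ≤ _ := by
        rw [hcardmem]
        omega
  -- numbers
  have hi := hlt i
  set a := (H.filter (fun A => i ∈ A)).card with ha
  set h := H₀.card with hh
  have hK1 : K = K - 1 + 1 := by omega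
  have hpow : h ^ K = h * h ^ (K - 1) := by
    rw [← pow_succ', ← hK1]
  have h3 : 3 ≤ h := by omega
  have h3K : 3 ^ (K - 1) ≤ h ^ (K - 1) := Nat.pow_le_pow_left h3 _
  have h3K' : 3 ^ K = 3 * 3 ^ (K - 1) := by
    rw [← pow_succ', ← hK1]
  have hb := pow_bound' n k
  have hb' : K * 2 ^ n * 2 + 2 < 3 ^ K := by
    have : (n + 4 + k) * 2 ^ (n + 1) = K * 2 ^ n * 2 := by
      rw [hK]
      ring
    rw [← this]
    exact hb
  have h2a : 2 * a + 3 ≤ h := by omega
  have hmul : (2 * a + 3) * h ^ (K - 1) ≤ h * h ^ (K - 1) := Nat.mul_le_mul_right _ h2a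
  have hmul' : (2 * a + 3) * h ^ (K - 1) = 2 * (a * h ^ (K - 1)) + 3 * h ^ (K - 1) := by ring
  omega

end Construction

/-- the converse is immediate: the closure is union-closed -/
lemma converse (h : UCConj) {n : ℕ} (hn : 1 ≤ n) (F : Finset (Finset (Fin n)))
    (hF : UnionClosed F) : Frankl (closure F) := by
  have : Nonempty (Fin n) := ⟨⟨0, hn⟩⟩
  exact h n hn _ (unionClosed_closure F hF)

theorem abundant_iff {c : ℝ} (hc : c < 1) : Q1Abundant c ↔ UCConj :=
  ⟨main hc, fun h _ hn F hF _ => converse h hn F hF⟩

theorem Q1_iff : Q1 ↔ UCConj := by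
  constructor
  · intro h
    refine main (c := 1 / 2) (by norm_num) ?_
    rintro n hn F hF ⟨i, hi⟩
    refine h n hn F hF ⟨i, ?_⟩
    have h1 : ((F.card / 2 : ℕ) : ℝ) ≤ (F.card : ℝ) / 2 := Nat.cast_div_le
    have h2 : ((F.card / 2 : ℕ) : ℝ) ≤ ((F.filter (fun A => i ∈ A)).card : ℝ) := by linarith
    exact_mod_cast h2
  · intro h n hn F hF _
    exact converse h hn F hF

theorem all_members {n : ℕ} (hn : 1 ≤ n) (F : Finset (Finset (Fin n))) (hF : UnionClosed F)
    (x : Fin n) (hx : ∀ A ∈ F, x ∈ A) : Frankl (closure F) := by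
  have : Nonempty (Fin n) := ⟨⟨0, hn⟩⟩
  exact frankl_of_all F hF x hx

end Pool.Agent.UCF
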