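import Pool.Agent.Lib_MP_89e0e0_co.Basic

/-!
# The normalised and the standard form of the union-closed sets conjecture are equivalent
-/

set_option autoImplicit false

namespace Pool.Agent.UCF

open Finset

/-- the union-closed sets conjecture in its standard form: a union-closed family with a nonempty
member (the empty set may belong to the family, the ground set need not) has an element lying in at
least half of its members -/
def Standard : Prop := ∀ (n : ℕ) (G : Finset (Finset (Fin n))), (∀ A ∈ G, ∀ B ∈ G, A ∪ B ∈ G) →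
  (∃ A ∈ G, A.Nonempty) → ∃ i : Fin n, G.card ≤ 2 * (G.filter (fun A => i ∈ A)).card

lemma UCConj_general (h : UCConj) {α : Type} [Fintype α] [DecidableEq α] [Nonempty α]
    (F : Finset (Finset α)) (h1 : UnionClosed F) : Frankl F := by
  have e := Fintype.equivFin α
  have h3 := h (Fintype.card α) Fintype.card_pos (tr e F) ((unionClosed_tr e F).2 h1)
  rw [frankl_tr] at h3
  exact h3

theorem standard_of_conj (h : UCConj) : Standard := by
  classical
  intro n G hG hne
  obtain ⟨A0, hA0, x0, hx0⟩ := hne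
  by_contra hcon
  push Not at hcon
  obtain ⟨M, hM, hmax⟩ := Finset.exists_max_image G Finset.card ⟨A0, hA0⟩
  have hsub : ∀ A ∈ G, A ⊆ M := by
    intro A hA
    have h1 := hmax _ (hG A hA M hM)
    have h2 := Finset.eq_of_subset_of_card_le (Finset.subset_union_right (s₁ := A) (s₂ := M)) h1
    rw [h2]
    exact Finset.subset_union_left
  have hx0M : x0 ∈ M := hsub A0 hA0 hx0
  set G0 : Finset (Finset (Fin n)) := insert ∅ G with hG0
  have hsub0 : ∀ A ∈ G0, A ⊆ M := by
    intro A hA
    rcases Finset.mem_insert.1 hA with rfl | hA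
    · exact Finset.empty_subset _
    · exact hsub A hA
  have hun0 : ∀ A ∈ G0, ∀ B ∈ G0, A ∪ B ∈ G0 := by
    intro A hA B hB
    rw [hG0, Finset.mem_insert] at hA hB ⊢
    rcases hA with rfl | hA
    · rw [Finset.empty_union]
      exact hB
    · rcases hB with rfl | hB
      · rw [Finset.union_empty]
        exact Or.inr hA
      · exact Or.inr (hG A hA B hB)
  let φ : Finset (Fin n) → Finset (Fin n) := fun A => if x0 ∈ A then A ∪ Mᶜ else A
  have hφ1 : ∀ A : Finset (Fin n), ∀ i ∈ M, (i ∈ φ A ↔ i ∈ A) := by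
    intro A i hi
    by_cases hx : x0 ∈ A
    · simp [φ, hx, hi]
    · simp [φ, hx]
  have hφ2 : ∀ A ∈ G0, ∀ i, i ∉ M → (i ∈ φ A ↔ x0 ∈ A) := by
    intro A hA i hi
    have h1 : i ∉ A := fun h => hi (hsub0 A hA h)
    by_cases hx : x0 ∈ A
    · simp [φ, hx, hi]
    · simp [φ, hx, h1]
  have hinj : ∀ A ∈ G0, ∀ B ∈ G0, φ A = φ B → A = B := by
    intro A hA B hB hAB
    ext i
    by_cases hi : i ∈ M
    · rw [← hφ1 A i hi, ← hφ1 B i hi, hAB]
    · exact ⟨fun h => absurd (hsub0 A hA h) hi, fun h => absurd (hsub0 B hB h) hi⟩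
  have hφun : ∀ A ∈ G0, ∀ B ∈ G0, φ (A ∪ B) = φ A ∪ φ B := by
    intro A hA B hB
    ext i
    rw [Finset.mem_union]
    by_cases hi : i ∈ M
    · rw [hφ1 _ i hi, hφ1 _ i hi, hφ1 _ i hi, Finset.mem_union]
    · rw [hφ2 _ (hun0 A hA B hB) i hi, hφ2 A hA i hi, hφ2 B hB i hi, Finset.mem_union]
  set G1 : Finset (Finset (Fin n)) := G0.image φ with hG1
  have hcard1 : G1.card = G0.card := Finset.card_image_of_injOn (fun A hA B hB => hinj A hA B hB)
  have hGle : G.card ≤ G0.card := Finset.card_le_card (Finset.subset_insert _ _)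
  have hfreq : ∀ i : Fin n, 2 * (G1.filter (fun A => i ∈ A)).card + 1 ≤ G1.card := by
    intro i
    obtain ⟨i', hi'⟩ : ∃ i' : Fin n, ∀ A ∈ G0, (i ∈ φ A ↔ i' ∈ A) := by
      by_cases hi : i ∈ M
      · exact ⟨i, fun A _ => hφ1 A i hi⟩
      · exact ⟨x0, fun A hA => hφ2 A hA i hi⟩
    have h1 : (G1.filter (fun A => i ∈ A)).card ≤ (G0.filter (fun A => i' ∈ A)).card := by
      have h2 : G1.filter (fun A => i ∈ A) ⊆ (G0.filter (fun A => i' ∈ A)).image φ := by
        intro B hB
        rw [Finset.mem_filter, hG1, Finset.mem_image] at hB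
        obtain ⟨⟨A, hA, rfl⟩, hi⟩ := hB
        rw [Finset.mem_image]
        exact ⟨A, Finset.mem_filter.2 ⟨hA, (hi' A hA).1 hi⟩, rfl⟩
      exact (Finset.card_le_card h2).trans Finset.card_image_le
    have h3 : (G0.filter (fun A => i' ∈ A)) = (G.filter (fun A => i' ∈ A)) := by
      rw [hG0, Finset.filter_insert, if_neg (Finset.notMem_empty i')]
    rw [h3] at h1
    have h4 := hcon i'
    omega
  have hemp : (∅ : Finset (Fin n)) ∈ G1 := by
    rw [hG1, Finset.mem_image]
    refine ⟨∅, Finset.mem_insert_self _ _, ?_⟩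
    simp [φ]
  have huniv : (Finset.univ : Finset (Fin n)) ∈ G1 := by
    rw [hG1, Finset.mem_image]
    refine ⟨M, Finset.mem_insert_of_mem hM, ?_⟩
    simp [φ, hx0M]
  have hun1 : ∀ A ∈ G1, ∀ B ∈ G1, A ∪ B ∈ G1 := by
    intro A hA B hB
    rw [hG1, Finset.mem_image] at hA hB ⊢
    obtain ⟨A, hA, rfl⟩ := hA
    obtain ⟨B, hB, rfl⟩ := hB
    exact ⟨A ∪ B, hun0 A hA B hB, hφun A hA B hB⟩
  have hg2 : 2 ≤ G1.card := by
    have h1 : ({∅, Finset.univ} : Finset (Finset (Fin n))) ⊆ G1 := by
      intro A hA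
      rw [Finset.mem_insert, Finset.mem_singleton] at hA
      rcases hA with rfl | rfl
      · exact hemp
      · exact huniv
    have h2 := Finset.card_le_card h1
    rw [Finset.card_pair] at h2
    · exact h2
    · intro h3
      have h4 : x0 ∈ (∅ : Finset (Fin n)) := by
        rw [h3]
        exact Finset.mem_univ _
      exact Finset.notMem_empty _ h4
  let P : Finset (Finset (Fin 3 × Fin n)) := box (fun _ : Fin 3 => G1)
  have hPcard : P.card = G1.card ^ 3 := by
    show (box (fun _ : Fin 3 => G1)).card = _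
    rw [card_box, Finset.prod_const, Finset.card_univ, Fintype.card_fin]
  have hPfreq : ∀ (j : Fin 3) (i : Fin n), (P.filter (fun C => (j, i) ∈ C)).card =
      (G1.filter (fun A => i ∈ A)).card * G1.card ^ 2 := fun j i => card_box_mem G1 j i
  have hPemp : (∅ : Finset (Fin 3 × Fin n)) ∈ P := by
    rw [mem_box]
    intro j
    have : sec (∅ : Finset (Fin 3 × Fin n)) j = ∅ := by
      ext i
      simp [mem_sec]
    rw [this]
    exact hemp
  have hF : UnionClosed (P.erase ∅) := by
    refine ⟨Finset.notMem_erase _ _, ?_, ?_⟩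
    · rw [Finset.mem_erase]
      constructor
      · intro h3
        have h4 : ((0 : Fin 3), x0) ∈ (∅ : Finset (Fin 3 × Fin n)) := by
          rw [← h3]
          exact Finset.mem_univ _
        exact Finset.notMem_empty _ h4
      · rw [mem_box]
        intro j
        have : sec (Finset.univ : Finset (Fin 3 × Fin n)) j = Finset.univ := by
          ext i
          simp [mem_sec]
        rw [this]
        exact huniv
    · intro A hA B hB
      rw [Finset.mem_erase] at hA hB ⊢
      constructor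
      · intro h3
        exact hA.1 (Finset.union_eq_empty.1 h3).1
      · rw [mem_box]
        intro j
        rw [sec_union]
        exact hun1 _ ((mem_box _ _).1 hA.2 j) _ ((mem_box _ _).1 hB.2 j)
  have : Nonempty (Fin 3 × Fin n) := ⟨((0 : Fin 3), x0)⟩
  obtain ⟨⟨j, i⟩, hji⟩ := UCConj_general h (P.erase ∅) hF
  rw [Finset.card_erase_of_mem hPemp, hPcard] at hji
  have h5 : ((P.erase ∅).filter (fun A => (j, i) ∈ A)).card ≤
      (P.filter (fun A => (j, i) ∈ A)).card :=
    Finset.card_le_card (Finset.filter_subset_filter _ (Finset.erase_subset _ _))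
  rw [hPfreq] at h5
  have h6 := hfreq i
  generalize (G1.filter (fun A => i ∈ A)).card = a at *
  generalize G1.card = g at *
  have h7 : g ^ 3 = g * g ^ 2 := by ring
  have h8 : (2 * a + 1) * g ^ 2 ≤ g * g ^ 2 := Nat.mul_le_mul_right _ h6
  have h9 : (2 * a + 1) * g ^ 2 = 2 * (a * g ^ 2) + g ^ 2 := by ring
  have h10 : 2 * 2 ≤ g ^ 2 := by nlinarith
  omega

theorem conj_of_standard (h : Standard) : UCConj := by
  rintro n hn F ⟨h1, h2, h3⟩
  obtain ⟨i, hi⟩ := h n F h3 ⟨Finset.univ, h2, ⟨⟨0, hn⟩, Finset.mem_univ _⟩⟩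
  exact ⟨i, by omega⟩

theorem standard_iff : Standard ↔ UCConj := ⟨conj_of_standard, standard_of_conj⟩

end Pool.Agent.UCF
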